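import Pool.Agent.Y60.DC.Stm

/-!
# Automorphisms of `PSL_2(F)`, `F` a finite field

Every automorphism is induced by `A ↦ g φ(A) g⁻¹` with `g ∈ GL_2(F)` and a field automorphism `φ`.
-/

set_option autoImplicit false

namespace Pool.Agent.Y287.DC

open Matrix Pool.Agent.Y60.DC

/-- `SL_2(F)` -/
abbrev SL (F : Type) [Field F] : Type := SpecialLinearGroup (Fin 2) F

section basic

variable {F : Type} [Field F]

/-- the image in `PSL_2` -/
def pr (A : SL F) : PSL2 F := QuotientGroup.mk A

theorem pr_mul (A B : SL F) : pr (A * B) = pr A * pr B := rfl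

theorem pr_one : pr (1 : SL F) = 1 := rfl

theorem pr_inv (A : SL F) : pr A⁻¹ = (pr A)⁻¹ := rfl

theorem pr_pow (A : SL F) (n : ℕ) : pr (A ^ n) = pr A ^ n := rfl

theorem pr_surj (y : PSL2 F) : ∃ A : SL F, pr A = y := QuotientGroup.mk_surjective y

theorem ext4 {A B : SL F} (h0 : A.1 0 0 = B.1 0 0) (h1 : A.1 0 1 = B.1 0 1)
    (h2 : A.1 1 0 = B.1 1 0) (h3 : A.1 1 1 = B.1 1 1) : A = B := by
  apply Subtype.ext
  ext i j
  fin_cases i <;> fin_cases j
  · exact h0
  · exact h1
  · exact h2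
  · exact h3

theorem mul_entry (A B : SL F) (i j : Fin 2) :
    (A * B).1 i j = A.1 i 0 * B.1 0 j + A.1 i 1 * B.1 1 j := by
  show (A.1 * B.1) i j = _
  rw [Matrix.mul_apply, Fin.sum_univ_two]

theorem det_entry (A : SL F) : A.1 0 0 * A.1 1 1 - A.1 0 1 * A.1 1 0 = 1 := by
  have h := A.2
  rw [Matrix.det_fin_two] at h
  exact h

/-- the element with given entries -/
def mk (x y z w : F) (h : x * w - y * z = 1) : SL F := ⟨!![x, y; z, w], by
  rw [Matrix.det_fin_two_of]; exact h⟩

/-- the negative -/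
def ng (A : SL F) : SL F := mk (-A.1 0 0) (-A.1 0 1) (-A.1 1 0) (-A.1 1 1) (by
  have := det_entry A
  linear_combination this)

/-- upper triangular -/
def U (a : F) : SL F := mk 1 a 0 1 (by ring)

/-- lower triangular -/
def V (a : F) : SL F := mk 1 0 a 1 (by ring)

theorem ng_val (A : SL F) : (ng A).1 = -A.1 := by
  ext i j
  fin_cases i <;> fin_cases j <;> rfl

theorem mem_center (A : SL F) : A ∈ Subgroup.center (SL F) ↔ A = 1 ∨ A = ng 1 := by
  rw [Matrix.SpecialLinearGroup.mem_center_iff]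
  constructor
  · rintro ⟨r, hr, hr2⟩
    rw [Fintype.card_fin] at hr
    have h1 : (r - 1) * (r + 1) = 0 := by linear_combination hr
    have e : ∀ i j, A.1 i j = (scalar (Fin 2) r) i j := fun i j => by rw [hr2]
    have e0 := e 0 0
    have e1 := e 0 1
    have e2 := e 1 0
    have e3 := e 1 1
    simp only [Matrix.scalar_apply, Matrix.diagonal_apply, Fin.isValue] at e0 e1 e2 e3
    rcases mul_eq_zero.1 h1 with h | h
    · left
      have hr1 : r = 1 := sub_eq_zero.1 h
      refine ext4 ?_ ?_ ?_ ?_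
      · rw [e0, hr1]; rfl
      · rw [e1]; rfl
      · rw [e2]; rfl
      · rw [e3, hr1]; rfl
    · right
      have hr1 : r = -1 := eq_neg_of_add_eq_zero_left h
      refine ext4 ?_ ?_ ?_ ?_
      · rw [e0, hr1, ng_val]; simp
      · rw [e1, ng_val]; simp
      · rw [e2, ng_val]; simp
      · rw [e3, hr1, ng_val]; simp
  · rintro (rfl | rfl)
    · exact ⟨1, by simp, by simp⟩
    · refine ⟨-1, by simp, ?_⟩
      rw [ng_val]
      ext i j
      fin_cases i <;> fin_cases j <;> simp [Matrix.scalar_apply]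

theorem pr_eq_iff (A B : SL F) : pr A = pr B ↔ A = B ∨ A = ng B := by
  have h1 : pr A = pr B ↔ A⁻¹ * B ∈ Subgroup.center (SL F) := QuotientGroup.eq
  rw [h1, mem_center]
  constructor
  · rintro (h | h)
    · left
      exact inv_mul_eq_one.1 h
    · right
      have h2 : B = A * ng 1 := by rw [← h]; group
      rw [h2]
      refine ext4 ?_ ?_ ?_ ?_ <;> · rw [ng_val, Matrix.neg_apply, mul_entry, ng_val]; simp
  · rintro (h | h)
    · left
      exact inv_mul_eq_one.2 h
    · right
      have h2 : B = A * ng 1 := by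
        rw [h]
        refine ext4 ?_ ?_ ?_ ?_ <;> · rw [mul_entry, ng_val, ng_val]; simp
      rw [h2]
      group

theorem U_mul (a b : F) : U a * U b = U (a + b) := by
  refine ext4 ?_ ?_ ?_ ?_ <;> · rw [mul_entry]; simp [U, mk, add_comm]

theorem V_mul (a b : F) : V a * V b = V (a + b) := by
  refine ext4 ?_ ?_ ?_ ?_ <;> · rw [mul_entry]; simp [V, mk]

theorem U_zero : U (0 : F) = 1 := by
  refine ext4 ?_ ?_ ?_ ?_ <;> simp [U, mk]

theorem V_zero : V (0 : F) = 1 := by
  refine ext4 ?_ ?_ ?_ ?_ <;> simp [V, mk]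

theorem U_pow (a : F) (n : ℕ) : U a ^ n = U (n * a) := by
  induction n with
  | zero => simp [U_zero]
  | succ n ih => rw [pow_succ, ih, U_mul]; push_cast; ring_nf

theorem V_pow (a : F) (n : ℕ) : V a ^ n = V (n * a) := by
  induction n with
  | zero => simp [V_zero]
  | succ n ih => rw [pow_succ, ih, V_mul]; push_cast; ring_nf

theorem prU_inj {a b : F} (h : pr (U a) = pr (U b)) : a = b := by
  rcases (pr_eq_iff _ _).1 h with h | h
  · exact congrArg (fun A : SL F => A.1 0 1) h
  · have h0 : (1 : F) = -1 := congrArg (fun A : SL F => A.1 0 0) h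
    have h1 : a = -b := congrArg (fun A : SL F => A.1 0 1) h
    linear_combination h1 - b * h0

theorem prV_inj {a b : F} (h : pr (V a) = pr (V b)) : a = b := by
  rcases (pr_eq_iff _ _).1 h with h | h
  · exact congrArg (fun A : SL F => A.1 1 0) h
  · have h0 : (1 : F) = -1 := congrArg (fun A : SL F => A.1 0 0) h
    have h1 : a = -b := congrArg (fun A : SL F => A.1 1 0) h
    linear_combination h1 - b * h0

/-- generation -/
theorem gen (P : SL F → Prop) (hU : ∀ a, P (U a)) (hV : ∀ a, P (V a))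
    (hm : ∀ A B, P A → P B → P (A * B)) (A : SL F) : P A := by
  have h1 : ∀ A : SL F, A.1 1 0 ≠ 0 → P A := by
    intro A hA
    have h2 : A = U ((A.1 0 0 - 1) / A.1 1 0) * V (A.1 1 0) * U ((A.1 1 1 - 1) / A.1 1 0) := by
      have hd := det_entry A
      refine ext4 ?_ ?_ ?_ ?_
      · rw [mul_entry, mul_entry, mul_entry]
        simp only [U, V, mk, Matrix.of_apply, Matrix.cons_val_zero, Matrix.cons_val_one,
          Matrix.cons_val', Matrix.cons_val_fin_one, Fin.isValue]
        field_simp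
        ring
      · rw [mul_entry, mul_entry, mul_entry]
        simp only [U, V, mk, Matrix.of_apply, Matrix.cons_val_zero, Matrix.cons_val_one,
          Matrix.cons_val', Matrix.cons_val_fin_one, Fin.isValue]
        field_simp
        linear_combination -hd
      · rw [mul_entry, mul_entry, mul_entry]
        simp only [U, V, mk, Matrix.of_apply, Matrix.cons_val_zero, Matrix.cons_val_one,
          Matrix.cons_val', Matrix.cons_val_fin_one, Fin.isValue]
        ring
      · rw [mul_entry, mul_entry, mul_entry]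
        simp only [U, V, mk, Matrix.of_apply, Matrix.cons_val_zero, Matrix.cons_val_one,
          Matrix.cons_val', Matrix.cons_val_fin_one, Fin.isValue]
        field_simp
        ring
    rw [h2]
    exact hm _ _ (hm _ _ (hU _) (hV _)) (hU _)
  by_cases hA : A.1 1 0 = 0
  · have h2 : A = V (-1) * (V 1 * A) := by
      rw [← mul_assoc, V_mul, neg_add_cancel, V_zero, one_mul]
    rw [h2]
    refine hm _ _ (hV _) (h1 _ ?_)
    rw [mul_entry]
    simp only [V, mk, Matrix.of_apply, Matrix.cons_val_zero, Matrix.cons_val_one,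
      Matrix.cons_val', Matrix.cons_val_fin_one, Fin.isValue]
    intro h3
    have hd := det_entry A
    have h4 : A.1 0 0 = 0 := by rw [hA] at h3; linear_combination h3
    rw [h4, hA] at hd
    simp at hd
  · exact h1 A hA

end basic

section unip

variable {F : Type} [Field F]

/-- simplification of the entries of explicit matrices -/
theorem mk_entries (x y z w : F) (h : x * w - y * z = 1) : (mk x y z w h).1 0 0 = x ∧
    (mk x y z w h).1 0 1 = y ∧ (mk x y z w h).1 1 0 = z ∧ (mk x y z w h).1 1 1 = w :=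
  ⟨rfl, rfl, rfl, rfl⟩

theorem mk00 (x y z w : F) (h : x * w - y * z = 1) : (mk x y z w h).1 0 0 = x := rfl
theorem mk01 (x y z w : F) (h : x * w - y * z = 1) : (mk x y z w h).1 0 1 = y := rfl
theorem mk10 (x y z w : F) (h : x * w - y * z = 1) : (mk x y z w h).1 1 0 = z := rfl
theorem mk11 (x y z w : F) (h : x * w - y * z = 1) : (mk x y z w h).1 1 1 = w := rfl
theorem U00 (a : F) : (U a).1 0 0 = 1 := rfl
theorem U01 (a : F) : (U a).1 0 1 = a := rfl
theorem U10 (a : F) : (U a).1 1 0 = 0 := rfl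
theorem U11 (a : F) : (U a).1 1 1 = 1 := rfl
theorem V00 (a : F) : (V a).1 0 0 = 1 := rfl
theorem V01 (a : F) : (V a).1 0 1 = 0 := rfl
theorem V10 (a : F) : (V a).1 1 0 = a := rfl
theorem V11 (a : F) : (V a).1 1 1 = 1 := rfl
theorem ng_entry (A : SL F) (i j : Fin 2) : (ng A).1 i j = -A.1 i j := by
  rw [ng_val, Matrix.neg_apply]

variable (p : ℕ) [Fact p.Prime] [CharP F p]

theorem trace_of_pow {A : SL F} (h : A ^ p = 1) : A.1 0 0 + A.1 1 1 = 2 := by
  have h1 : A.1 ^ p = 1 := congrArg Subtype.val h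
  have h2 : (A.1 - 1) ^ p = 0 := by
    rw [sub_pow_char_of_commute p (Commute.one_right A.1), h1, one_pow, sub_self]
  have h3 : (A.1 - 1).det = 0 := by
    have h4 : (A.1 - 1).det ^ p = 0 := by
      rw [← Matrix.det_pow, h2, Matrix.det_zero]
    exact pow_eq_zero_iff (Fact.out : p.Prime).ne_zero |>.1 h4
  rw [Matrix.det_fin_two] at h3
  simp only [Matrix.sub_apply, Matrix.one_apply_eq, Fin.isValue, ne_eq, zero_ne_one,
    not_false_eq_true, Matrix.one_apply_ne, one_ne_zero, sub_zero] at h3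
  have hd := det_entry A
  linear_combination hd - h3

omit [Fact p.Prime] in
theorem neg_one_of_two : p = 2 → (-1 : F) = 1 := by
  intro h
  have h2 : ((p : ℕ) : F) = 0 := CharP.cast_eq_zero F p
  rw [h] at h2
  push_cast at h2
  linear_combination -h2

theorem lift_pow {y : PSL2 F} (h : y ^ p = 1) : ∃ A : SL F, pr A = y ∧ A.1 0 0 + A.1 1 1 = 2 := by
  obtain ⟨A, rfl⟩ := pr_surj y
  rw [← pr_pow, ← pr_one] at h
  rcases (pr_eq_iff _ _).1 h with h1 | h1
  · exact ⟨A, rfl, trace_of_pow p h1⟩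
  · rcases (Fact.out : p.Prime).eq_two_or_odd' with h2 | h2
    · have h3 : ng (1 : SL F) = 1 := by
        have := neg_one_of_two (F := F) p h2
        refine ext4 ?_ ?_ ?_ ?_ <;> · rw [ng_entry]; simp [this]
      rw [h3] at h1
      exact ⟨A, rfl, trace_of_pow p h1⟩
    · refine ⟨ng A, ((pr_eq_iff _ _).2 (Or.inr rfl)), trace_of_pow p ?_⟩
      apply Subtype.ext
      show (ng A).1 ^ p = 1
      rw [ng_val, h2.neg_pow]
      have h3 : A.1 ^ p = (ng 1 : SL F).1 := congrArg Subtype.val h1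
      rw [h3, ng_val, neg_neg]
      rfl

/-- an element of trace two which commutes with `u(c)` -/
theorem comm_U {A : SL F} (ht : A.1 0 0 + A.1 1 1 = 2) {c : F} (hc : c ≠ 0)
    (h : pr A * pr (U c) = pr (U c) * pr A) : A = U (A.1 0 1) := by
  have hd := det_entry A
  rw [← pr_mul, ← pr_mul] at h
  have key : A.1 1 0 = 0 := by
    rcases (pr_eq_iff _ _).1 h with h1 | h1
    · have e : (A * U c).1 0 0 = (U c * A).1 0 0 := by rw [h1]
      rw [mul_entry, mul_entry, U00, U01, U10] at e
      have e2 : c * A.1 1 0 = 0 := by linear_combination -e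
      exact (mul_eq_zero.1 e2).resolve_left hc
    · have e0 : (A * U c).1 0 0 = (ng (U c * A)).1 0 0 := by rw [h1]
      have e1 : (A * U c).1 1 1 = (ng (U c * A)).1 1 1 := by rw [h1]
      rw [ng_entry, mul_entry, mul_entry, U00, U01, U10] at e0
      rw [ng_entry, mul_entry, mul_entry, U10, U01, U11] at e1
      have e5 : (A * U c).1 1 0 = (ng (U c * A)).1 1 0 := by rw [h1]
      rw [ng_entry, mul_entry, mul_entry, U00, U10, U11] at e5
      have e2 : (2 : F) * 2 = 0 := by
        linear_combination e0 + e1 - (2 : F) * ht - c * e5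
      have e3 : (2 : F) = 0 := by
        rcases mul_eq_zero.1 e2 with h | h <;> exact h
      have e4 : c * A.1 1 0 = 0 := by
        linear_combination -e0 + e3 * A.1 0 0 + e3 * (c * A.1 1 0)
      exact (mul_eq_zero.1 e4).resolve_left hc
  have h1 : (A.1 0 0 - 1) ^ 2 = 0 := by
    rw [key] at hd
    linear_combination -hd + A.1 0 0 * ht
  have h2 : A.1 0 0 = 1 := by
    have := pow_eq_zero_iff (two_ne_zero) |>.1 h1
    exact sub_eq_zero.1 this
  refine ext4 ?_ rfl ?_ ?_
  · rw [h2]; rfl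
  · rw [key]; rfl
  · rw [U11]; linear_combination ht - h2

end unip

section norm

variable {F : Type} [Field F] (p : ℕ) [Fact p.Prime] [CharP F p]

omit [Fact p.Prime] [CharP F p] in
theorem low_U {A : SL F} (ht : A.1 0 0 + A.1 1 1 = 2) (hz : A.1 1 0 = 0) : A = U (A.1 0 1) := by
  have hd := det_entry A
  have h1 : (A.1 0 0 - 1) ^ 2 = 0 := by
    rw [hz] at hd
    linear_combination -hd + A.1 0 0 * ht
  have h2 : A.1 0 0 = 1 := by
    have := pow_eq_zero_iff (two_ne_zero) |>.1 h1
    exact sub_eq_zero.1 this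
  refine ext4 ?_ rfl ?_ ?_
  · rw [h2]; rfl
  · rw [hz]; rfl
  · rw [U11]; linear_combination ht - h2

omit [Fact p.Prime] [CharP F p] in
theorem comm_V {A : SL F} (ht : A.1 0 0 + A.1 1 1 = 2) {c : F} (hc : c ≠ 0)
    (h : pr A * pr (V c) = pr (V c) * pr A) : A = V (A.1 1 0) := by
  have hd := det_entry A
  rw [← pr_mul, ← pr_mul] at h
  have key : A.1 0 1 = 0 := by
    rcases (pr_eq_iff _ _).1 h with h1 | h1
    · have e : (A * V c).1 0 0 = (V c * A).1 0 0 := by rw [h1]
      rw [mul_entry, mul_entry, V00, V01, V10] at e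
      have e2 : c * A.1 0 1 = 0 := by linear_combination e
      exact (mul_eq_zero.1 e2).resolve_left hc
    · have e0 : (A * V c).1 0 0 = (ng (V c * A)).1 0 0 := by rw [h1]
      have e1 : (A * V c).1 1 1 = (ng (V c * A)).1 1 1 := by rw [h1]
      have e5 : (A * V c).1 0 1 = (ng (V c * A)).1 0 1 := by rw [h1]
      rw [ng_entry, mul_entry, mul_entry, V00, V01, V10] at e0
      rw [ng_entry, mul_entry, mul_entry, V10, V01, V11] at e1
      rw [ng_entry, mul_entry, mul_entry, V00, V01, V11] at e5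
      have e2 : (2 : F) * 2 = 0 := by
        linear_combination e0 + e1 - (2 : F) * ht - c * e5
      have e3 : (2 : F) = 0 := by
        rcases mul_eq_zero.1 e2 with h | h <;> exact h
      have e4 : c * A.1 0 1 = 0 := by
        linear_combination e0 - e3 * A.1 0 0
      exact (mul_eq_zero.1 e4).resolve_left hc
  have h1 : (A.1 0 0 - 1) ^ 2 = 0 := by
    rw [key] at hd
    linear_combination -hd + A.1 0 0 * ht
  have h2 : A.1 0 0 = 1 := by
    have := pow_eq_zero_iff (two_ne_zero) |>.1 h1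
    exact sub_eq_zero.1 this
  refine ext4 ?_ ?_ rfl ?_
  · rw [h2]; rfl
  · rw [key]; rfl
  · rw [V11]; linear_combination ht - h2

omit [Fact p.Prime] in
theorem U_p (a : F) : pr (U a) ^ p = 1 := by
  rw [← pr_pow, U_pow, CharP.cast_eq_zero, zero_mul, U_zero, pr_one]

omit [Fact p.Prime] in
theorem V_p (a : F) : pr (V a) ^ p = 1 := by
  rw [← pr_pow, V_pow, CharP.cast_eq_zero, zero_mul, V_zero, pr_one]

omit [Fact p.Prime] [CharP F p] in
theorem conjU {A : SL F} (ht : A.1 0 0 + A.1 1 1 = 2) : ∃ (X : SL F) (c : F),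
    X * A * X⁻¹ = U c := by
  by_cases hz : A.1 1 0 = 0
  · exact ⟨1, A.1 0 1, by rw [one_mul, inv_one, mul_one]; exact low_U ht hz⟩
  · have hd := det_entry A
    obtain ⟨X, hX⟩ : ∃ X : SL F, X = mk (A.1 0 0 - 1) (-1 / A.1 1 0) (A.1 1 0) 0 (by
      field_simp; ring) := ⟨_, rfl⟩
    have h1 : A * X = X * U (-1 / A.1 1 0) := by
      rw [hX]
      refine ext4 ?_ ?_ ?_ ?_
      · rw [mul_entry, mul_entry, mk00, mk10, mk01, U00, U10]
        linear_combination -hd + A.1 0 0 * ht
      · rw [mul_entry, mul_entry, mk00, mk11, mk01, U01, U11]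
        field_simp
        ring
      · rw [mul_entry, mul_entry, mk00, mk10, mk11, U00, U10]
        linear_combination A.1 1 0 * ht
      · rw [mul_entry, mul_entry, mk01, mk10, mk11, U01, U11]
        field_simp
        ring
    refine ⟨X⁻¹, -1 / A.1 1 0, ?_⟩
    rw [inv_inv, mul_assoc, h1]
    group

include p in
theorem normU (f : MulAut (PSL2 F)) : ∃ X : SL F, ∀ a, ∃ b,
    (MulAut.conj (pr X) * f) (pr (U a)) = pr (U b) := by
  obtain ⟨A, hA, ht⟩ := lift_pow (F := F) p (y := f (pr (U 1))) (by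
    rw [← map_pow, U_p p, map_one])
  obtain ⟨X, c, hX⟩ := conjU ht
  refine ⟨X, fun a => ?_⟩
  have h1 : (MulAut.conj (pr X) * f) (pr (U 1)) = pr (U c) := by
    show pr X * f (pr (U 1)) * (pr X)⁻¹ = pr (U c)
    rw [← hA, ← hX]
    rfl
  have hc : c ≠ 0 := by
    rintro rfl
    rw [U_zero, pr_one] at h1
    have h2 : pr (U (1 : F)) = pr (U 0) := by
      rw [U_zero, pr_one]
      exact (MulEquiv.map_eq_one_iff (MulAut.conj (pr X) * f)).1 h1
    exact one_ne_zero (prU_inj h2)
  obtain ⟨B, hB, htB⟩ := lift_pow (F := F) p (y := (MulAut.conj (pr X) * f) (pr (U a))) (by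
    rw [← map_pow, U_p p, map_one])
  refine ⟨B.1 0 1, ?_⟩
  rw [← hB]
  refine congrArg pr (comm_U htB hc ?_)
  rw [hB, ← h1, ← map_mul, ← map_mul, ← pr_mul, ← pr_mul, U_mul, U_mul, add_comm]

include p in
theorem normV (f : MulAut (PSL2 F)) (hU : ∀ a, ∃ b, f (pr (U a)) = pr (U b)) :
    ∃ b₀ : F, (∀ a, ∃ b, (MulAut.conj (pr (U b₀)) * f) (pr (U a)) = pr (U b)) ∧
      ∀ a, ∃ b, (MulAut.conj (pr (U b₀)) * f) (pr (V a)) = pr (V b) := by
  obtain ⟨A, hA, ht⟩ := lift_pow (F := F) p (y := f (pr (V 1))) (by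
    rw [← map_pow, V_p p, map_one])
  have hd := det_entry A
  have hz : A.1 1 0 ≠ 0 := by
    intro hz
    have h1 := low_U ht hz
    obtain ⟨c, hc⟩ := hU 1
    have h2 : f (pr (V 1) * pr (U 1)) = f (pr (U 1) * pr (V 1)) := by
      rw [map_mul, map_mul, ← hA, hc, h1, ← pr_mul, ← pr_mul, U_mul, U_mul, add_comm]
    have h3 := f.injective h2
    rw [← pr_mul, ← pr_mul] at h3
    rcases (pr_eq_iff _ _).1 h3 with h | h
    · have e : (V (1 : F) * U (1 : F)).1 0 0 = (U (1 : F) * V (1 : F)).1 0 0 := by rw [h]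
      rw [mul_entry, mul_entry, V00, V01, U00, U01, U10, V10] at e
      have : (1 : F) = 0 := by linear_combination -e
      exact one_ne_zero this
    · have e : (V (1 : F) * U (1 : F)).1 0 0 = (ng (U (1 : F) * V (1 : F))).1 0 0 := by rw [h]
      have e' : (V (1 : F) * U (1 : F)).1 0 1 = (ng (U (1 : F) * V (1 : F))).1 0 1 := by rw [h]
      rw [ng_entry, mul_entry, mul_entry, V00, V01, U00, U01, U10, V10] at e
      rw [ng_entry, mul_entry, mul_entry, V00, V01, U00, U01, U11, V11] at e'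
      have : (1 : F) = 0 := by linear_combination 2 * e' - e
      exact one_ne_zero this
  obtain ⟨b₀, hb₀⟩ : ∃ b₀ : F, b₀ = (1 - A.1 0 0) / A.1 1 0 := ⟨_, rfl⟩
  have hb : b₀ * A.1 1 0 = 1 - A.1 0 0 := by rw [hb₀]; field_simp
  have hconj : U b₀ * A = V (A.1 1 0) * U b₀ := by
    have hyz : A.1 0 1 + b₀ * A.1 1 1 = b₀ := by
      have h5 : A.1 1 0 * (A.1 0 1 + b₀ * A.1 1 1 - b₀) = 0 := by
        linear_combination -hd + (A.1 1 1 - 1) * hb + ht
      have h6 := (mul_eq_zero.1 h5).resolve_left hz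
      linear_combination h6
    refine ext4 ?_ ?_ ?_ ?_
    · rw [mul_entry, mul_entry, U00, U01, V00, V01, U10]
      linear_combination hb
    · rw [mul_entry, mul_entry, U00, U01, V00, V01, U11]
      linear_combination hyz
    · rw [mul_entry, mul_entry, U00, U10, V10, V11, U11]
      ring
    · rw [mul_entry, mul_entry, U01, U10, V10, V11, U11]
      linear_combination ht - hb
  refine ⟨b₀, fun a => ?_, fun a => ?_⟩
  · obtain ⟨b, hb⟩ := hU a
    refine ⟨b, ?_⟩
    show pr (U b₀) * f (pr (U a)) * (pr (U b₀))⁻¹ = pr (U b)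
    rw [hb, ← pr_mul, U_mul, add_comm, ← U_mul, pr_mul, mul_assoc, mul_inv_cancel, mul_one]
  · have h1 : (MulAut.conj (pr (U b₀)) * f) (pr (V 1)) = pr (V (A.1 1 0)) := by
      show pr (U b₀) * f (pr (V 1)) * (pr (U b₀))⁻¹ = pr (V (A.1 1 0))
      rw [← hA, ← pr_mul, hconj, pr_mul, mul_assoc, mul_inv_cancel, mul_one]
    obtain ⟨B, hB, htB⟩ := lift_pow (F := F) p
      (y := (MulAut.conj (pr (U b₀)) * f) (pr (V a))) (by
        rw [← map_pow, V_p p, map_one])
    refine ⟨B.1 1 0, ?_⟩
    rw [← hB]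
    refine congrArg pr (comm_V htB hz ?_)
    rw [hB, ← h1, ← map_mul, ← map_mul, ← pr_mul, ← pr_mul, V_mul, V_mul, add_comm]

end norm

section main

variable {F : Type} [Field F]

/-- `f` is induced by a semilinear map -/
def Good (f : MulAut (PSL2 F)) : Prop :=
  ∃ (g : GL (Fin 2) F) (φ : F ≃+* F), ∀ A B : SL F,
    B.1 * g.1 = g.1 * A.1.map φ → f (pr A) = pr B

theorem good_conj (f : MulAut (PSL2 F)) (X : SL F) (h : Good (MulAut.conj (pr X) * f)) :
    Good f := by
  obtain ⟨g, φ, hg⟩ := h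
  refine ⟨(SpecialLinearGroup.toGL X⁻¹) * g, φ, fun A B hAB => ?_⟩
  have e1 : ((SpecialLinearGroup.toGL X⁻¹) * g).1 = (X⁻¹).1 * g.1 := rfl
  rw [e1] at hAB
  have hX : X.1 * (X⁻¹).1 = 1 := by
    have := congrArg Subtype.val (mul_inv_cancel X)
    exact this
  have h1 := hg A (X * B * X⁻¹) (by
    show X.1 * B.1 * (X⁻¹).1 * g.1 = g.1 * A.1.map φ
    calc X.1 * B.1 * (X⁻¹).1 * g.1 = X.1 * (B.1 * ((X⁻¹).1 * g.1)) := by
          simp only [mul_assoc]
      _ = X.1 * ((X⁻¹).1 * g.1 * A.1.map φ) := by rw [hAB]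
      _ = (X.1 * (X⁻¹).1) * (g.1 * A.1.map φ) := by simp only [mul_assoc]
      _ = g.1 * A.1.map φ := by rw [hX, one_mul])
  have h2 : pr X * f (pr A) * (pr X)⁻¹ = pr X * pr B * (pr X)⁻¹ := h1
  exact mul_left_cancel (mul_right_cancel h2)

/-- the relation between the two functions -/
theorem hk_rel (f : MulAut (PSL2 F)) (h k : F → F) (hh : ∀ a, f (pr (U a)) = pr (U (h a)))
    (hk : ∀ a, f (pr (V a)) = pr (V (k a))) (hk0 : ∀ a, a ≠ 0 → k a ≠ 0) {a b : F}
    (hab : a * b = -1) : h a * k b = -1 := by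
  have hb : b ≠ 0 := by
    rintro rfl
    rw [mul_zero] at hab
    exact one_ne_zero (neg_eq_zero.1 hab.symm)
  have e : U a * V b * U a * U 1 = V (-b ^ 2) * (U a * V b * U a) := by
    refine ext4 ?_ ?_ ?_ ?_ <;>
    simp only [mul_entry, U00, U01, U10, U11, V00, V01, V10, V11]
    · ring
    · linear_combination hab
    · linear_combination (b ^ 2 : F) * hab
    · linear_combination (b + a * b ^ 2 : F) * hab
  have e2 : pr (U (h a) * V (k b) * U (h a) * U (h 1)) =
      pr (V (k (-b ^ 2)) * (U (h a) * V (k b) * U (h a))) := by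
    have e3 := congrArg (fun A => f (pr A)) e
    simp only [pr_mul, map_mul, hh, hk] at e3
    simp only [pr_mul]
    exact e3
  have hd : k (-b ^ 2) ≠ 0 := hk0 _ (neg_ne_zero.2 (pow_ne_zero 2 hb))
  obtain ⟨d, hd'⟩ : ∃ d, d = k (-b ^ 2) := ⟨_, rfl⟩
  rw [← hd'] at e2 hd
  by_contra hne
  have hs : 1 + h a * k b ≠ 0 := fun hs => hne (by linear_combination hs)
  rcases (pr_eq_iff _ _).1 e2 with h1 | h1
  · have e3 := congrArg (fun A : SL F => A.1 1 0) h1
    simp only [mul_entry, U00, U01, U10, U11, V00, V01, V10, V11] at e3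
    have e4 : d * (1 + h a * k b) = 0 := by linear_combination -e3
    exact (mul_ne_zero hd hs) e4
  · have e3 := congrArg (fun A : SL F => A.1 1 0) h1
    have e5 := congrArg (fun A : SL F => A.1 0 0) h1
    simp only [ng_entry, mul_entry, U00, U01, U10, U11, V00, V01, V10, V11] at e3 e5
    have e6 : 2 * (1 + h a * k b) = 0 := by linear_combination e5
    have e7 : (2 : F) = 0 := (mul_eq_zero.1 e6).resolve_right hs
    have e4 : d * (1 + h a * k b) = 0 := by linear_combination e3 - k b * e7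
    exact (mul_ne_zero hd hs) e4

/-- multiplicativity -/
theorem mul_rel (f : MulAut (PSL2 F)) (h k : F → F) (hh : ∀ a, f (pr (U a)) = pr (U (h a)))
    (hk : ∀ a, f (pr (V a)) = pr (V (k a))) (hk0 : ∀ a, a ≠ 0 → k a ≠ 0)
    (hneg : ∀ a, h (-a) = -h a) (h10 : h 1 ≠ 0) (h0 : h 0 = 0) (a b : F) :
    h (a ^ 2 * b) = (h a / h 1) ^ 2 * h b := by
  by_cases ha : a = 0
  · rw [ha, h0]
    simp [h0]
  have hrel : ∀ a : F, a ≠ 0 → h a * k (-1 / a) = -1 := fun a ha =>
    hk_rel f h k hh hk hk0 (by field_simp)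
  have hane : h a ≠ 0 := by
    intro h1
    have h2 := hrel a ha
    rw [h1, zero_mul] at h2
    exact one_ne_zero (neg_eq_zero.1 h2.symm)
  have hne : ∀ a : F, a ≠ 0 → h a ≠ 0 := by
    intro a ha h1
    have h2 := hrel a ha
    rw [h1, zero_mul] at h2
    exact one_ne_zero (neg_eq_zero.1 h2.symm)
  have hdet : ∀ (a : F) (ha : a ≠ 0), 0 * 0 - h a * (-1 / h a) = 1 := by
    intro a ha
    have h3 := hne a ha
    field_simp
    ring
  have hw : ∀ (a : F) (ha : a ≠ 0), f (pr (U a * V (-1 / a) * U a)) =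
      pr (mk 0 (h a) (-1 / h a) 0 (hdet a ha)) := by
    intro a ha
    have h3 : h a ≠ 0 := hne a ha
    have h4 : k (-1 / a) = -1 / h a := by
      rw [eq_div_iff h3, mul_comm]
      exact hrel a ha
    rw [pr_mul, pr_mul, map_mul, map_mul, hh, hk, ← pr_mul, ← pr_mul, h4]
    refine congrArg pr (ext4 ?_ ?_ ?_ ?_) <;>
    simp only [mul_entry, U00, U01, U10, U11, V00, V01, V10, V11, mk00, mk01, mk10, mk11] <;>
    field_simp <;> ring
  have hT : f (pr (mk a 0 0 a⁻¹ (by field_simp; ring))) =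
      pr (mk (h a / h 1) 0 0 (h 1 / h a) (by field_simp; ring)) := by
    have e1 : mk a 0 0 a⁻¹ (by field_simp; ring) =
        (U a * V (-1 / a) * U a) * (U (-1) * V (-1 / (-1)) * U (-1)) := by
      refine ext4 ?_ ?_ ?_ ?_ <;>
      simp only [mul_entry, U00, U01, U10, U11, V00, V01, V10, V11, mk00, mk01, mk10, mk11] <;>
      field_simp <;> ring
    rw [e1, pr_mul, map_mul, hw a ha, hw (-1) (neg_ne_zero.2 one_ne_zero), ← pr_mul]
    refine congrArg pr (ext4 ?_ ?_ ?_ ?_) <;>
    simp only [mul_entry, mk00, mk01, mk10, mk11, hneg] <;>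
    field_simp <;> ring
  have e2 : mk a 0 0 a⁻¹ (by field_simp; ring) * U b =
      U (a ^ 2 * b) * mk a 0 0 a⁻¹ (by field_simp; ring) := by
    refine ext4 ?_ ?_ ?_ ?_ <;>
    simp only [mul_entry, U00, U01, U10, U11, mk00, mk01, mk10, mk11] <;>
    field_simp <;> ring
  have e3 : mk (h a / h 1) 0 0 (h 1 / h a) (by field_simp; ring) * U (h b) =
      U ((h a / h 1) ^ 2 * h b) * mk (h a / h 1) 0 0 (h 1 / h a) (by field_simp; ring) := by
    refine ext4 ?_ ?_ ?_ ?_ <;>
    simp only [mul_entry, U00, U01, U10, U11, mk00, mk01, mk10, mk11] <;>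
    field_simp <;> ring
  have e4 := congrArg (fun A => f (pr A)) e2
  simp only [pr_mul, map_mul, hh, hT] at e4
  rw [← pr_mul, e3, pr_mul] at e4
  exact (prU_inj (mul_right_cancel e4)).symm

end main

section final

variable {F : Type} [Field F]

theorem good_norm [Finite F] (f : MulAut (PSL2 F)) (hU : ∀ a, ∃ b, f (pr (U a)) = pr (U b))
    (hV : ∀ a, ∃ b, f (pr (V a)) = pr (V b)) : Good f := by
  choose h hh using hU
  choose k hk using hV
  have hadd : ∀ a b, h (a + b) = h a + h b := by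
    intro a b
    apply prU_inj
    rw [← hh, ← U_mul, pr_mul, map_mul, hh, hh, ← pr_mul, U_mul]
  have hinj : Function.Injective h := by
    intro a b hab
    apply prU_inj
    apply f.injective
    rw [hh, hh, hab]
  have kadd : ∀ a b, k (a + b) = k a + k b := by
    intro a b
    apply prV_inj
    rw [← hk, ← V_mul, pr_mul, map_mul, hk, hk, ← pr_mul, V_mul]
  have kinj : Function.Injective k := by
    intro a b hab
    apply prV_inj
    apply f.injective
    rw [hk, hk, hab]
  have h0 : h 0 = 0 := by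
    have := hadd 0 0
    rw [add_zero] at this
    linear_combination -this
  have k0 : k 0 = 0 := by
    have := kadd 0 0
    rw [add_zero] at this
    linear_combination -this
  have hneg : ∀ a, h (-a) = -h a := by
    intro a
    have := hadd a (-a)
    rw [add_neg_cancel, h0] at this
    linear_combination -this
  have h10 : h 1 ≠ 0 := fun e => one_ne_zero (hinj (e.trans h0.symm))
  have hk0 : ∀ a, a ≠ 0 → k a ≠ 0 := fun a ha e => ha (kinj (e.trans k0.symm))
  have hφadd : ∀ a b, h (a + b) / h 1 = h a / h 1 + h b / h 1 := by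
    intro a b
    rw [hadd]
    ring
  have hφsq : ∀ a b, h (a ^ 2 * b) / h 1 = (h a / h 1) ^ 2 * (h b / h 1) := by
    intro a b
    rw [mul_rel f h k hh hk hk0 hneg h10 h0]
    ring
  have hφmul : ∀ a b, h (a * b) / h 1 = (h a / h 1) * (h b / h 1) := by
    intro a b
    by_cases h2 : (2 : F) = 0
    · have hsq : Function.Injective fun x : F => x ^ 2 := by
        intro x y hxy
        have e1 : x ^ 2 = y ^ 2 := hxy
        have e2 : (x - y) ^ 2 = 0 := by linear_combination e1 + (y ^ 2 - x * y) * h2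
        exact sub_eq_zero.1 (pow_eq_zero_iff two_ne_zero |>.1 e2)
      obtain ⟨c, hc⟩ := Finite.surjective_of_injective hsq a
      have hc' : a = c ^ 2 := hc.symm
      have e1 := hφsq c 1
      rw [mul_one, div_self h10, mul_one] at e1
      rw [hc', hφsq, e1]
    · have e1 := hφsq (a + b) 1
      have e2 := hφsq a 1
      have e3 := hφsq b 1
      rw [mul_one, div_self h10, mul_one] at e1 e2 e3
      have e4 : (a + b) ^ 2 = a ^ 2 + (a * b + (a * b + b ^ 2)) := by ring
      rw [e4, hφadd, hφadd, hφadd, e2, e3, hφadd] at e1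
      have e5 : 2 * (h (a * b) / h 1 - h a / h 1 * (h b / h 1)) = 0 := by
        linear_combination e1
      have e6 := (mul_eq_zero.1 e5).resolve_left h2
      linear_combination e6
  obtain ⟨φh, hφh⟩ : ∃ φh : F →+* F, ∀ a, φh a = h a / h 1 :=
    ⟨{ toFun := fun a => h a / h 1
       map_one' := div_self h10
       map_mul' := hφmul
       map_zero' := by rw [h0, zero_div]
       map_add' := hφadd }, fun a => rfl⟩
  obtain ⟨φ, hφ⟩ : ∃ φ : F ≃+* F, ∀ a, φ a = φh a :=
    ⟨RingEquiv.ofBijective φh (Finite.injective_iff_bijective.1 φh.injective), fun a => rfl⟩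
  have hhφ : ∀ a, h a = h 1 * φh a := by
    intro a
    rw [hφh]
    field_simp
  have hkφ : ∀ a, k a = φh a / h 1 := by
    intro a
    by_cases ha : a = 0
    · rw [ha, k0, map_zero, zero_div]
    · have e1 := hk_rel f h k hh hk hk0 (a := -1 / a) (b := a) (by field_simp)
      have e2 : h (-1 / a) = -(h 1 / φh a) := by
        rw [hhφ, map_div₀, map_neg, map_one]
        ring
      have e3 : φh a ≠ 0 := (map_ne_zero φh).2 ha
      rw [e2] at e1
      field_simp at e1 ⊢
      linear_combination -e1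
  have hθdet : ∀ A : SL F, φh (A.1 0 0) * φh (A.1 1 1) -
      (h 1 * φh (A.1 0 1)) * (φh (A.1 1 0) / h 1) = 1 := by
    intro A
    have e1 := congrArg φh (det_entry A)
    rw [map_sub, map_mul, map_mul, map_one] at e1
    field_simp
    linear_combination e1
  have key : ∀ A : SL F, f (pr A) = pr (mk (φh (A.1 0 0)) (h 1 * φh (A.1 0 1))
      (φh (A.1 1 0) / h 1) (φh (A.1 1 1)) (hθdet A)) := by
    refine gen _ (fun a => ?_) (fun a => ?_) (fun A B hA hB => ?_)
    · rw [hh]
      refine congrArg pr (ext4 ?_ ?_ ?_ ?_)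
      · rw [U00, mk00, U00, map_one]
      · rw [U01, mk01, U01, hhφ]
      · rw [U10, mk10, U10, map_zero, zero_div]
      · rw [U11, mk11, U11, map_one]
    · rw [hk]
      refine congrArg pr (ext4 ?_ ?_ ?_ ?_)
      · rw [V00, mk00, V00, map_one]
      · rw [V01, mk01, V01, map_zero, mul_zero]
      · rw [V10, mk10, V10, hkφ]
      · rw [V11, mk11, V11, map_one]
    · rw [pr_mul, map_mul, hA, hB, ← pr_mul]
      refine congrArg pr (ext4 ?_ ?_ ?_ ?_) <;>
      simp only [mul_entry, mk00, mk01, mk10, mk11, map_add, map_mul] <;>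
      field_simp
  refine ⟨Matrix.GeneralLinearGroup.mkOfDetNeZero !![h 1, 0; 0, 1] (by
    rw [Matrix.det_fin_two_of]; simpa using h10), φ, fun A B hAB => ?_⟩
  rw [key]
  have hg : (Matrix.GeneralLinearGroup.mkOfDetNeZero !![h 1, 0; 0, 1] (by
    rw [Matrix.det_fin_two_of]; simpa using h10) : GL (Fin 2) F).1 = !![h 1, 0; 0, 1] := rfl
  rw [hg] at hAB
  have ent : ∀ i j, (B.1 * !![h 1, 0; 0, 1]) i j = (!![h 1, 0; 0, 1] * A.1.map φ) i j :=
    fun i j => by rw [hAB]
  have t0 := ent 0 0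
  have t1 := ent 0 1
  have t2 := ent 1 0
  have t3 := ent 1 1
  simp only [Matrix.mul_apply, Fin.sum_univ_two, Matrix.map_apply, Matrix.of_apply,
    Matrix.cons_val_zero, Matrix.cons_val_one, Matrix.cons_val', Matrix.cons_val_fin_one,
    Fin.isValue, hφ, mul_zero, add_zero, mul_one, zero_mul, zero_add, one_mul] at t0 t1 t2 t3
  refine congrArg pr (ext4 ?_ ?_ ?_ ?_)
  · rw [mk00]
    exact mul_left_cancel₀ h10 (t0.symm.trans (mul_comm _ _))
  · rw [mk01]; exact t1.symm
  · rw [mk10, ← t2]; field_simp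
  · rw [mk11]; exact t3.symm

end final

/-- DC-AUT -/
theorem aut_holds : Pool.Agent.Y60.DC.TaskAUT := by
  intro F _ _ _ f
  obtain ⟨p, hp⟩ := CharP.exists F
  have hpp : p.Prime := CharP.char_is_prime F p
  have hF : Fact p.Prime := ⟨hpp⟩
  obtain ⟨X, hX⟩ := normU p f
  obtain ⟨b₀, h1, h2⟩ := normV p (MulAut.conj (pr X) * f) hX
  exact good_conj f X (good_conj _ (U b₀) (good_norm _ h1 h2))

end Pool.Agent.Y287.DC
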